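import Pool.Agent.Helper812_PN.Pure

/-!
# Classes of varieties closed under products with a Tate curve
-/

namespace Pool.Agent.Helper812_PN

universe u v

open Module Pool.Agent.Y143

variable {Ω : Type u} [Field Ω] [CharZero Ω] {q : ℕ}

section tate

variable {D D' : FrobModule.{u, v} Ω q}

/-- The formula for the powers of `N` on the tensor product with `H^1(E)`. -/
lemma pow_tate {J : D.V × D.V →ₗ[Ω] D'.V} (hJ : IsTateTensor D D' J) (x : D.V) (r k : ℕ) :
    (D'.N ^ k) (J (-D.N x, (r : Ω) • x)) =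
      J (-(D.N ^ (k + 1)) x, ((r : Ω) - k) • (D.N ^ k) x) := by
  induction k with
  | zero => simp
  | succ k ih =>
    rw [pow_succ', Module.End.mul_apply, ih, hJ.mon]
    congr 1
    ext
    · show D.N (-(D.N ^ (k + 1)) x) = -(D.N ^ (k + 1 + 1)) x
      rw [map_neg, pow_succ' D.N (k + 1), Module.End.mul_apply]
    · show -(D.N ^ (k + 1)) x + D.N (((r : Ω) - k) • (D.N ^ k) x) =
        ((r : Ω) - ((k + 1 : ℕ) : Ω)) • (D.N ^ (k + 1)) x
      rw [map_smul, ← Module.End.mul_apply, ← pow_succ']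
      push_cast
      module

/-- The weights of the tensor product with `H^1(E)`. -/
lemma wt_tate (hq : 1 < q) {J : D.V × D.V →ₗ[Ω] D'.V} (hJ : IsTateTensor D D' J) {w : ℤ}
    {x y : D.V} (hx : x ∈ wt D (w - 2)) (hy : y ∈ wt D w) : J (x, y) ∈ wt D' w := by
  have h1 : J (x, 0) ∈ wt D' w := by
    have := wt_map (D := D) (D' := D') (β := (q : Ω)) (c := 2) (fun w α h => by
      have := weil_twist (by omega : q ≠ 0) h 1
      rwa [zpow_one, mul_one] at this) (J ∘ₗ LinearMap.inl Ω D.V D.V) (fun x => by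
        show D'.Φ (J (x, 0)) = (q : Ω) • J (D.Φ x, 0)
        rw [hJ.frob, map_zero, ← map_smul J, Prod.smul_mk, smul_zero]) (w - 2) x hx
    rwa [show w - 2 + 2 = w by ring] at this
  have h2 : J (0, y) ∈ wt D' w := by
    have := wt_map (D := D) (D' := D') (β := (1 : Ω)) (c := 0) (fun w α h => by
      rwa [one_mul, add_zero]) (J ∘ₗ LinearMap.inr Ω D.V D.V) (fun x => by
        show D'.Φ (J (0, x)) = (1 : Ω) • J (0, D.Φ x)
        rw [hJ.frob, map_zero, smul_zero, one_smul]) w y hy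
    rwa [add_zero] at this
  have h3 : J (x, y) = J (x, 0) + J (0, y) := by
    rw [← map_add, Prod.mk_add_mk, add_zero, zero_add]
  rw [h3]
  exact Submodule.add_mem _ h1 h2

/-- From `N ^ r` for the product with a Tate curve to `N ^ (r + 1)`. -/
lemma injAt_succ (hq : 1 < q) {J : D.V × D.V →ₗ[Ω] D'.V} (hJ : IsTateTensor D D' J) {i : ℤ} {r : ℕ}
    (hr : 1 ≤ r) (h : InjAt D' (i + 1) r) : InjAt D i (r + 1) := by
  intro x hx hN
  have hr0 : (r : Ω) ≠ 0 := Nat.cast_ne_zero.2 (by omega)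
  have h1 : J (-D.N x, (r : Ω) • x) ∈ wt D' (i + 1 + r) := by
    apply wt_tate hq hJ
    · apply Submodule.neg_mem
      have := wt_N D hq _ x hx
      rwa [show i + ((r + 1 : ℕ) : ℤ) - 2 = i + 1 + r - 2 by push_cast; ring] at this
    · apply Submodule.smul_mem
      rwa [show i + 1 + (r : ℤ) = i + ((r + 1 : ℕ) : ℤ) by push_cast; ring]
  have h2 : (D'.N ^ r) (J (-D.N x, (r : Ω) • x)) = 0 := by
    rw [pow_tate hJ, sub_self, zero_smul, hN, neg_zero]
    exact map_zero J
  have h3 := h _ h1 h2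
  have h4 : ((-D.N x, (r : Ω) • x) : D.V × D.V) = 0 := hJ.inj (by rw [h3, map_zero])
  have h5 : (r : Ω) • x = 0 := congrArg Prod.snd h4
  exact (smul_eq_zero.1 h5).resolve_left hr0

end tate

variable [IsAlgClosed Ω] {𝒳 : ∀ n, Set (Cohomology.{u, v} Ω q n)}

omit [IsAlgClosed Ω] in
lemma injAt_all (hq : 1 < q) (hT : HasTateProducts 𝒳)
    (h : ∀ n, ∀ X ∈ 𝒳 n, ∀ i : ℕ, InjAt (X.H i) i 1) (r : ℕ) :
    ∀ n, ∀ X ∈ 𝒳 n, ∀ i : ℕ, InjAt (X.H i) i (r + 1) := by
  induction r with
  | zero => exact h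
  | succ r ih =>
    intro n X hX i
    obtain ⟨X', hX', hT'⟩ := hT n X hX
    obtain ⟨J, hJ⟩ := (hT' i).exists
    have := ih (n + 1) X' hX' (i + 1)
    push_cast at this
    exact injAt_succ hq hJ (by omega) this

/-- mw purity from the injectivity of `N` on the part of weight `i + 1` of `H^i`. -/
theorem pure_of_injAt (hq : 1 < q) (hT : HasTateProducts 𝒳)
    (h : ∀ n, ∀ X ∈ 𝒳 n, ∀ i : ℕ, InjAt (X.H i) i 1) :
    ∀ n, ∀ X ∈ 𝒳 n, ∀ i : ℕ, (X.H i).Pure i := by
  intro n X hX i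
  have hall : ∀ (r i : ℕ), InjAt (X.H i) i r := by
    intro r i
    rcases Nat.eq_zero_or_pos r with hr | hr
    · subst hr
      intro x _ hx
      rwa [pow_zero, Module.End.one_apply] at hx
    · obtain ⟨r, rfl⟩ := Nat.exists_eq_succ_of_ne_zero hr.ne'
      exact injAt_all hq hT h r n X hX i
  rcases le_or_gt i (2 * n) with hi | hi
  · obtain ⟨j, hj⟩ := Nat.exists_eq_add_of_le hi
    obtain ⟨B, hB⟩ := (X.dual i j hj.symm).exists
    exact pure_of_bij _ hq i (fun r => hall r i) (fun r =>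
      surjAt_of_injAt hq hB (by exact_mod_cast hj.symm) (hall r i) (hall r j))
  · exact pure_of_bij _ hq i (fun r => hall r i) (fun r y _ =>
      ⟨0, Submodule.zero_mem _, by rw [map_zero]; exact (X.vanish i hi y).symm⟩)

/-- A bound for the weights of the kernel of `N` gives the vanishing of the invariants. -/
theorem noInvariants_of_kerBounded {D : FrobModule.{u, v} Ω q} {i : ℤ} {c : ℕ}
    (hic : i < 2 * c) (h : D.KerBounded i) : D.NoInvariants c := by
  intro k x hk hN hx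
  by_contra hx0
  have hZ : ∀ y ∈ LinearMap.ker D.N ⊓ LinearMap.ker
      (D.Φ ^ k - (((q : Ω) ^ c) ^ k) • (1 : Module.End Ω D.V)),
      D.Φ y ∈ LinearMap.ker D.N ⊓ LinearMap.ker
      (D.Φ ^ k - (((q : Ω) ^ c) ^ k) • (1 : Module.End Ω D.V)) := by
    rintro y ⟨h1, h2⟩
    rw [SetLike.mem_coe, LinearMap.mem_ker] at h1 h2
    constructor
    · rw [SetLike.mem_coe, LinearMap.mem_ker, D.rel, h1, map_zero, smul_zero]
    · rw [LinearMap.sub_apply, LinearMap.smul_apply, Module.End.one_apply, sub_eq_zero] at h2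
      rw [SetLike.mem_coe, LinearMap.mem_ker, LinearMap.sub_apply, LinearMap.smul_apply,
        Module.End.one_apply, sub_eq_zero, ← Module.End.mul_apply, ← pow_succ, pow_succ',
        Module.End.mul_apply, h2, map_smul]
  obtain ⟨α, y, hy, hy0, hyα⟩ := exists_eigen_stable D.Φ hZ (v := x) ⟨hN, by
    rw [SetLike.mem_coe, LinearMap.mem_ker, LinearMap.sub_apply, LinearMap.smul_apply,
      Module.End.one_apply, sub_eq_zero]
    exact hx⟩ hx0
  have h1 : (D.Φ ^ k) y = (((q : Ω) ^ c) ^ k) • y := by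
    have := hy.2
    rwa [SetLike.mem_coe, LinearMap.mem_ker, LinearMap.sub_apply, LinearMap.smul_apply,
      Module.End.one_apply, sub_eq_zero] at this
  have h2 : ∀ j : ℕ, (D.Φ ^ j) y = α ^ j • y := by
    intro j
    induction j with
    | zero => simp
    | succ j ih => rw [pow_succ', Module.End.mul_apply, ih, map_smul, hyα, smul_smul, ← pow_succ]
  have h3 : α ^ k = ((q : Ω) ^ c) ^ k := by
    rw [h2, ← sub_eq_zero, ← sub_smul] at h1
    exact sub_eq_zero.1 ((smul_eq_zero.1 h1).resolve_right hy0)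
  have h4 := h _ α y hy0 hy.1 hyα (weil_of_pow hk h3)
  omega

/-- From the vanishing of the invariants in the middle degree to the injectivity of `N`. -/
theorem injAt_one_of_noInvariants (hq : 1 < q) (hW : HasTwists 𝒳)
    (h : ∀ m, ∀ X ∈ 𝒳 (2 * m + 1), (X.H (2 * m + 1)).NoInvariants (m + 1)) :
    ∀ n, ∀ X ∈ 𝒳 n, ∀ i : ℕ, InjAt (X.H i) i 1 := by
  intro n X hX i x hx hN
  by_contra hx0
  rw [pow_one] at hN
  have hZ : ∀ y ∈ wt (X.H i) (i + (1 : ℕ)) ⊓ LinearMap.ker (X.H i).N,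
      (X.H i).Φ y ∈ wt (X.H i) (i + (1 : ℕ)) ⊓ LinearMap.ker (X.H i).N := by
    rintro y ⟨h1, h2⟩
    refine ⟨wt_Φ _ _ y h1, ?_⟩
    rw [SetLike.mem_coe, LinearMap.mem_ker] at h2 ⊢
    rw [(X.H i).rel, h2, map_zero, smul_zero]
  obtain ⟨α, y, hy, hy0, hyα⟩ := exists_eigen_stable (X.H i).Φ hZ (v := x) ⟨hx, hN⟩ hx0
  have h1 := weil_of_wt _ hq hy.1 hy0 hyα
  obtain ⟨m, X', hX', β, ⟨k, hk, hαβ⟩, hJ⟩ := hW n X hX i α ⟨y, hy0, hyα⟩ (by
    push_cast at h1
    exact h1)
  obtain ⟨J, hJ⟩ := hJ.exists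
  have h2 : ∀ j : ℕ, ((X'.H (2 * m + 1)).Φ ^ j) (J y) = (α * β) ^ j • J y := by
    intro j
    induction j with
    | zero => simp
    | succ j ih =>
      rw [pow_succ', Module.End.mul_apply, ih, map_smul, hJ.frob, hyα, map_smul, smul_smul,
        smul_smul, pow_succ]
      congr 1
      ring
  have h3 := h m X' hX' k (J y) hk (by rw [hJ.mon, LinearMap.mem_ker.1 hy.2, map_zero]) (by
    rw [h2, hαβ])
  exact hy0 (hJ.inj (by rw [h3, map_zero]))

/-! ### Invariants and coinvariants -/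

section coinv

omit [IsAlgClosed Ω]

variable {n : ℕ} {D D' : FrobModule.{u, v} Ω q} {B : D.V →ₗ[Ω] D'.V →ₗ[Ω] Ω}

lemma IsDuality.frob_pow (hB : IsDuality n D D' B) (k : ℕ) (x : D.V) (y : D'.V) :
    B ((D.Φ ^ k) x) ((D'.Φ ^ k) y) = ((q : Ω) ^ n) ^ k * B x y := by
  induction k with
  | zero => simp
  | succ k ih =>
    rw [pow_succ' D.Φ, pow_succ' D'.Φ, Module.End.mul_apply, Module.End.mul_apply, hB.frob, ih,
      pow_succ' ((q : Ω) ^ n), mul_assoc]

/-- By duality, the vanishing of the invariants of `D'` follows from the vanishing of the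
coinvariants of `D`. -/
theorem noInvariants_of_noCoinvariants (hq : 1 < q) (hB : IsDuality n D D' B) {a b : ℕ}
    (hab : a + b = n) (h : D.NoCoinvariants a) : D'.NoInvariants b := by
  have hq0 : (q : Ω) ≠ 0 := Nat.cast_ne_zero.2 (by omega)
  intro k x hk hN hx
  -- the functional defined by `x`
  have h1 : ∀ y, B (D.N y) x = 0 := by
    intro y
    rw [hB.mon, hN, map_zero, neg_zero]
  have h2 : ∀ y, B ((D.Φ ^ k) y) x = ((q : Ω) ^ a) ^ k * B y x := by
    intro y
    have h3 := hB.frob_pow k y x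
    rw [hx, map_smul, smul_eq_mul] at h3
    have h4 : ((q : Ω) ^ n) ^ k = ((q : Ω) ^ b) ^ k * ((q : Ω) ^ a) ^ k := by
      rw [← mul_pow, ← pow_add, add_comm b a, hab]
    rw [h4, mul_assoc] at h3
    exact mul_left_cancel₀ (pow_ne_zero _ (pow_ne_zero _ hq0)) h3
  -- the quotient by the image of `N`
  let R : Submodule Ω D.V := LinearMap.range D.N
  let T : Module.End Ω D.V := D.Φ ^ k - (((q : Ω) ^ a) ^ k) • (1 : Module.End Ω D.V)
  have hΦR : ∀ y ∈ R, D.Φ y ∈ R := by
    rintro _ ⟨y, rfl⟩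
    refine ⟨(q : Ω)⁻¹ • D.Φ y, ?_⟩
    rw [map_smul, D.rel, smul_smul, inv_mul_cancel₀ hq0, one_smul]
  have hΦkR : ∀ (j : ℕ), ∀ y ∈ R, (D.Φ ^ j) y ∈ R := by
    intro j
    induction j with
    | zero => intro y hy; simpa using hy
    | succ j ih => intro y hy; rw [pow_succ', Module.End.mul_apply]; exact hΦR _ (ih y hy)
  have hTR : R ≤ R.comap T := by
    intro y hy
    rw [Submodule.mem_comap, LinearMap.sub_apply, LinearMap.smul_apply, Module.End.one_apply]
    exact R.sub_mem (hΦkR k y hy) (R.smul_mem _ hy)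
  let T' : (D.V ⧸ R) →ₗ[Ω] (D.V ⧸ R) := R.mapQ R T hTR
  have hinj : Function.Injective T' := by
    rw [← LinearMap.ker_eq_bot, eq_bot_iff]
    intro y hy
    obtain ⟨y, rfl⟩ := R.mkQ_surjective y
    rw [LinearMap.mem_ker] at hy
    have h5 : T y ∈ R := by
      rw [← Submodule.Quotient.mk_eq_zero]
      exact hy
    rw [LinearMap.sub_apply, LinearMap.smul_apply, Module.End.one_apply] at h5
    obtain ⟨z, hz⟩ := h5
    obtain ⟨z', hz'⟩ := h k y hk ⟨z, hz.symm⟩
    rw [Submodule.mem_bot, Submodule.mkQ_apply, Submodule.Quotient.mk_eq_zero]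
    exact ⟨z', hz'.symm⟩
  have hsurj : Function.Surjective T' := (LinearMap.injective_iff_surjective).1 hinj
  apply hB.right
  intro y
  obtain ⟨z, hz⟩ := hsurj (R.mkQ y)
  obtain ⟨z, rfl⟩ := R.mkQ_surjective z
  have h6 : y - T z ∈ R := by
    have h7 : R.mkQ (T z) = R.mkQ y := hz
    rw [← Submodule.Quotient.mk_eq_zero, Submodule.Quotient.mk_sub, sub_eq_zero]
    exact h7.symm
  obtain ⟨z', hz'⟩ := h6
  have h8 : B y x = B (T z) x + B (D.N z') x := by
    rw [← LinearMap.add_apply, ← map_add, hz', add_sub_cancel]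
  rw [h8, h1, LinearMap.sub_apply, LinearMap.smul_apply, Module.End.one_apply, map_sub, map_smul,
    LinearMap.sub_apply, LinearMap.smul_apply, h2, smul_eq_mul, sub_self, add_zero]

/-- The converse. -/
theorem noCoinvariants_of_noInvariants (hq : 1 < q) (hB : IsDuality n D D' B) {a b : ℕ}
    (hab : a + b = n) (hΦ : Function.Surjective D.Φ) (h : D'.NoInvariants b) :
    D.NoCoinvariants a := by
  have hq0 : (q : Ω) ≠ 0 := Nat.cast_ne_zero.2 (by omega)
  have hT : ∀ k : ℕ, 0 < k → LinearMap.range D.N ⊔ LinearMap.range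
      (D.Φ ^ k - (((q : Ω) ^ a) ^ k) • (1 : Module.End Ω D.V)) = ⊤ := by
    intro k hk
    by_contra hne
    obtain ⟨f, hf0, hf⟩ := Submodule.exists_dual_map_eq_bot_of_lt_top
      (lt_top_iff_ne_top.2 hne) inferInstance
    have hf' : ∀ y ∈ LinearMap.range D.N ⊔ LinearMap.range
        (D.Φ ^ k - (((q : Ω) ^ a) ^ k) • (1 : Module.End Ω D.V)), f y = 0 := by
      intro y hy
      have : f y ∈ Submodule.map f (LinearMap.range D.N ⊔ LinearMap.range
        (D.Φ ^ k - (((q : Ω) ^ a) ^ k) • (1 : Module.End Ω D.V))) := ⟨y, hy, rfl⟩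
      rw [hf, Submodule.mem_bot] at this
      exact this
    -- `f` is given by an element `x`
    obtain ⟨x, hx⟩ : ∃ x, ∀ y, B y x = f y := by
      have hinj : Function.Injective (B.flip : D'.V →ₗ[Ω] Module.Dual Ω D.V) := by
        rw [← LinearMap.ker_eq_bot, eq_bot_iff]
        intro x hx
        rw [Submodule.mem_bot]
        apply hB.right
        intro y
        exact LinearMap.congr_fun (LinearMap.mem_ker.1 hx) y
      have hinj' : Function.Injective (B : D.V →ₗ[Ω] Module.Dual Ω D'.V) := by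
        rw [← LinearMap.ker_eq_bot, eq_bot_iff]
        intro x hx
        rw [Submodule.mem_bot]
        apply hB.left
        intro y
        exact LinearMap.congr_fun (LinearMap.mem_ker.1 hx) y
      have hd : finrank Ω D'.V = finrank Ω (Module.Dual Ω D.V) := by
        apply le_antisymm (LinearMap.finrank_le_finrank_of_injective hinj)
        rw [Subspace.dual_finrank_eq]
        have := LinearMap.finrank_le_finrank_of_injective hinj'
        rwa [Subspace.dual_finrank_eq] at this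
      obtain ⟨x, hx⟩ := (LinearMap.injective_iff_surjective_of_finrank_eq_finrank hd).1 hinj f
      exact ⟨x, fun y => LinearMap.congr_fun hx y⟩
    have hNx : D'.N x = 0 := by
      apply hB.right
      intro y
      have h1 := hB.mon y x
      rw [hx, hf' _ (Submodule.mem_sup_left ⟨y, rfl⟩)] at h1
      exact neg_eq_zero.1 h1.symm
    have hΦk : Function.Surjective (D.Φ ^ k) := by
      rw [Module.End.coe_pow]
      exact hΦ.iterate k
    have hΦx : (D'.Φ ^ k) x = ((q : Ω) ^ b) ^ k • x := by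
      rw [← sub_eq_zero]
      apply hB.right
      intro y
      obtain ⟨z, rfl⟩ := hΦk y
      have h1 : B ((D.Φ ^ k) z) x = ((q : Ω) ^ a) ^ k * B z x := by
        have := hf' _ (Submodule.mem_sup_right ⟨z, rfl⟩)
        rw [LinearMap.sub_apply, LinearMap.smul_apply, Module.End.one_apply, map_sub, map_smul,
          sub_eq_zero] at this
        rw [hx, hx, this, smul_eq_mul]
      rw [map_sub, hB.frob_pow, map_smul, h1, smul_eq_mul, ← hab, pow_add, mul_pow]
      ring
    have hx0 := h k x hk hNx hΦx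
    apply hf0
    ext y
    rw [← hx, hx0, map_zero, LinearMap.zero_apply]
  intro k y hk hy
  obtain ⟨z, hz⟩ := hy
  let R : Submodule Ω D.V := LinearMap.range D.N
  let T : Module.End Ω D.V := D.Φ ^ k - (((q : Ω) ^ a) ^ k) • (1 : Module.End Ω D.V)
  have hΦR : ∀ y ∈ R, D.Φ y ∈ R := by
    rintro _ ⟨y, rfl⟩
    refine ⟨(q : Ω)⁻¹ • D.Φ y, ?_⟩
    rw [map_smul, D.rel, smul_smul, inv_mul_cancel₀ hq0, one_smul]
  have hΦkR : ∀ (j : ℕ), ∀ y ∈ R, (D.Φ ^ j) y ∈ R := by
    intro j
    induction j with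
    | zero => intro y hy; simpa using hy
    | succ j ih => intro y hy; rw [pow_succ', Module.End.mul_apply]; exact hΦR _ (ih y hy)
  have hTR : R ≤ R.comap T := by
    intro y hy
    rw [Submodule.mem_comap, LinearMap.sub_apply, LinearMap.smul_apply, Module.End.one_apply]
    exact R.sub_mem (hΦkR k y hy) (R.smul_mem _ hy)
  let T' : (D.V ⧸ R) →ₗ[Ω] (D.V ⧸ R) := R.mapQ R T hTR
  have hsurj : Function.Surjective T' := by
    intro y
    obtain ⟨y, rfl⟩ := R.mkQ_surjective y
    have : y ∈ LinearMap.range D.N ⊔ LinearMap.range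
      (D.Φ ^ k - (((q : Ω) ^ a) ^ k) • (1 : Module.End Ω D.V)) := by
      rw [hT k hk]; exact Submodule.mem_top
    obtain ⟨r, hr, _, ⟨t, rfl⟩, hrt⟩ := Submodule.mem_sup.1 this
    refine ⟨R.mkQ t, ?_⟩
    show R.mkQ (T t) = R.mkQ y
    rw [← hrt, map_add, (R.mkQ_apply r).trans ((Submodule.Quotient.mk_eq_zero R).2 hr), zero_add]
  have hinj : Function.Injective T' := (LinearMap.injective_iff_surjective).2 hsurj
  have h1 : R.mkQ y = 0 := by
    apply hinj
    rw [map_zero]
    show R.mkQ (T y) = 0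
    rw [Submodule.mkQ_apply, Submodule.Quotient.mk_eq_zero]
    exact ⟨z, hz.symm⟩
  rw [Submodule.mkQ_apply, Submodule.Quotient.mk_eq_zero] at h1
  obtain ⟨w, hw⟩ := h1
  exact ⟨w, hw.symm⟩

lemma surjective_Φ (hq : 1 < q) (D : FrobModule.{u, v} Ω q) : Function.Surjective D.Φ := by
  rw [← LinearMap.injective_iff_surjective, ← LinearMap.ker_eq_bot, eq_bot_iff]
  intro x hx
  rw [Submodule.mem_bot]
  by_contra hx0
  obtain ⟨w, hw⟩ := D.weight 0 x hx0 (by rw [zero_smul]; exact hx)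
  exact weil_ne_zero (by omega) hw rfl

end coinv

end Pool.Agent.Helper812_PN
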