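import Pool.Agent.Y143.Defs

/-!
# Frobenius modules with monodromy and the cohomology of smooth proper varieties: definitions
-/

namespace Pool.Agent.Helper812_PN

universe u v

open Module Pool.Agent.Y143

section bare

variable {Ω : Type u} [Field Ω] {V : Type v} [AddCommGroup V] [Module Ω V] {V' : Type v}
  [AddCommGroup V'] [Module Ω V']

/-- The value `f(x)` of a linear map. -/
def ap (f : V →ₗ[Ω] V') (x : V) : V' := f x

/-- The value `B(x, y)` of a bilinear form. -/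
def bil (B : V →ₗ[Ω] V' →ₗ[Ω] Ω) (x : V) (y : V') : Ω := B x y

/-- `B` is a perfect pairing of `V` and `V'` into `Ω(-n)`, compatible with the Frobenius operators
`Φ`, `Φ'` and the monodromy operators `N`, `N'`. -/
structure IsDual (q n : ℕ) (Φ N : V →ₗ[Ω] V) (Φ' N' : V' →ₗ[Ω] V') (B : V →ₗ[Ω] V' →ₗ[Ω] Ω) :
    Prop where
  left : ∀ x, (∀ y, bil B x y = 0) → x = 0
  right : ∀ y, (∀ x, bil B x y = 0) → y = 0
  frob : ∀ x y, bil B (ap Φ x) (ap Φ' y) = (q : Ω) ^ n * bil B x y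
  mon : ∀ x y, bil B (ap N x) y = -bil B x (ap N' y)

/-- `(x, y) ↦ J₂(x) + J₀(y)`, where `J₂(x) = x ⊗ e₂` and `J₀(y) = y ⊗ e₀`, embeds the tensor product
of `V` with `H^1(E) = Ω e₂ + Ω e₀` in `V'`, compatibly with the Frobenius and the monodromy
operators, where `E` is a Tate elliptic curve: `N e₂ = e₀`, `N e₀ = 0`, `Φ e₂ = q e₂` and
`Φ e₀ = e₀`. -/
structure IsTate (q : ℕ) (Φ N : V →ₗ[Ω] V) (Φ' N' : V' →ₗ[Ω] V') (J₂ J₀ : V →ₗ[Ω] V') : Prop where
  inj : ∀ x y, ap J₂ x + ap J₀ y = 0 → x = 0 ∧ y = 0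
  frob₂ : ∀ x, ap Φ' (ap J₂ x) = (q : Ω) • ap J₂ (ap Φ x)
  frob₀ : ∀ x, ap Φ' (ap J₀ x) = ap J₀ (ap Φ x)
  mon₂ : ∀ x, ap N' (ap J₂ x) = ap J₂ (ap N x) + ap J₀ x
  mon₀ : ∀ x, ap N' (ap J₀ x) = ap J₀ (ap N x)

/-- `J(x) = x ⊗ z` embeds `V` in `V'`, where `z` is a class with `N z = 0` and Frobenius
eigenvalue `β`. -/
structure IsTensor (β : Ω) (Φ N : V →ₗ[Ω] V) (Φ' N' : V' →ₗ[Ω] V') (J : V →ₗ[Ω] V') : Prop where
  inj : ∀ x, ap J x = 0 → x = 0
  frob : ∀ x, ap Φ' (ap J x) = β • ap J (ap Φ x)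
  mon : ∀ x, ap N' (ap J x) = ap J (ap N x)

end bare

/-- A Frobenius module with monodromy: a finite-dimensional space `V` over `Ω` with a linear operator
`Φ` (the action of a geometric Frobenius element) and the monodromy operator `N`, with
`N Φ = q Φ N`, such that the eigenvalues of `Φ` are `q`-Weil numbers (of any integral weights). -/
structure FrobModule (Ω : Type u) [Field Ω] [CharZero Ω] (q : ℕ) where
  V : Type v
  [grp : AddCommGroup V]
  [mod : Module Ω V]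
  [fin : FiniteDimensional Ω V]
  Φ : Module.End Ω V
  N : Module.End Ω V
  rel : ∀ x, N (Φ x) = (q : Ω) • Φ (N x)
  weight : ∀ (α : Ω) (x : V), x ≠ 0 → Φ x = α • x → ∃ w : ℤ, IsWeilNumber q w α

attribute [instance] FrobModule.grp FrobModule.mod FrobModule.fin

section

variable {Ω : Type u} [Field Ω] [CharZero Ω] {q : ℕ}

/-- The module is mw pure of weight `i`: the eigenvalues of `Φ` on the graded pieces `gr_a` of the
monodromy filtration have weight `i + a`. -/
def FrobModule.Pure (D : FrobModule.{u, v} Ω q) (i : ℤ) : Prop := IsMWPure q i D.Φ D.N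

/-- `α` is an eigenvalue of `Φ`. -/
def FrobModule.IsEigenvalue (D : FrobModule.{u, v} Ω q) (α : Ω) : Prop :=
  ∃ x, x ≠ 0 ∧ D.Φ x = α • x

/-- The eigenvalues of `Φ` on the kernel of `N` have weight at most `i`. -/
def FrobModule.KerBounded (D : FrobModule.{u, v} Ω q) (i : ℤ) : Prop :=
  ∀ (w : ℤ) (α : Ω) (x : D.V), x ≠ 0 → D.N x = 0 → D.Φ x = α • x → IsWeilNumber q w α → w ≤ i

/-- No power `Φ ^ k` of the Frobenius, `k ≥ 1`, has the eigenvalue `q ^ (c k)` on the kernel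
of `N`. -/
def FrobModule.NoInvariants (D : FrobModule.{u, v} Ω q) (c : ℕ) : Prop :=
  ∀ (k : ℕ) (x : D.V), 0 < k → D.N x = 0 → (D.Φ ^ k) x = ((q : Ω) ^ c) ^ k • x → x = 0

/-- No power `Φ ^ k` of the Frobenius, `k ≥ 1`, has the eigenvalue `q ^ (c k)` on the cokernel
of `N`. -/
def FrobModule.NoCoinvariants (D : FrobModule.{u, v} Ω q) (c : ℕ) : Prop :=
  ∀ (k : ℕ) (x : D.V), 0 < k → (∃ y, (D.Φ ^ k) x - ((q : Ω) ^ c) ^ k • x = D.N y) → ∃ y, x = D.N y

/-- `D` and `D'` are dual with values in `Ω(-n)`. -/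
def AreDual (n : ℕ) (D D' : FrobModule.{u, v} Ω q) : Prop := ∃ B, IsDual q n D.Φ D.N D'.Φ D'.N B

/-- The tensor product of `D` with `H^1` of a Tate elliptic curve embeds in `D'`. -/
def TateEmbeds (D D' : FrobModule.{u, v} Ω q) : Prop :=
  ∃ J₂ J₀, IsTate q D.Φ D.N D'.Φ D'.N J₂ J₀

/-- `D ⊗ z` embeds in `D'`, where `z` is a class with `N z = 0` and Frobenius eigenvalue `β`. -/
def TensorEmbeds (β : Ω) (D D' : FrobModule.{u, v} Ω q) : Prop :=
  ∃ J, IsTensor β D.Φ D.N D'.Φ D'.N J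

/-- `α` is the product of `q ^ c` and a root of unity. -/
def IsTatePower (q c : ℕ) (α : Ω) : Prop := ∃ k : ℕ, 0 < k ∧ α ^ k = ((q : Ω) ^ c) ^ k

end

/-- The cohomology of a smooth proper variety of pure dimension `n`: the Frobenius modules `H i`
(with monodromy), which are zero for `i > 2 n`, and Poincare duality. -/
structure Cohomology (Ω : Type u) [Field Ω] [CharZero Ω] (q n : ℕ) where
  H : ℕ → FrobModule.{u, v} Ω q
  vanish : ∀ i, 2 * n < i → ∀ x : (H i).V, x = 0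
  dual : ∀ i j, i + j = 2 * n → AreDual n (H i) (H j)

section

variable {Ω : Type u} [Field Ω] [CharZero Ω] {q : ℕ}

/-- The class of varieties `𝒳` is closed under products with a Tate elliptic curve `E`: the Künneth
formula embeds `H^i(X) ⊗ H^1(E)` in `H^(i+1)(X')`, where `X'` is the product of `X` and `E`. -/
def HasTateProducts (𝒳 : ∀ n, Set (Cohomology.{u, v} Ω q n)) : Prop :=
  ∀ n, ∀ X ∈ 𝒳 n, ∃ X' ∈ 𝒳 (n + 1), ∀ i, TateEmbeds (X.H i) (X'.H (i + 1))

/-- Every Frobenius eigenvalue `α` of weight `i + 1` on `H^i(X)`, for `X` in the class, becomes a Tate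
class in the middle cohomology of the product of `X` with some smooth projective variety `Z` with
good reduction: the product `X'` is again in the class, it has odd dimension `2 m + 1`, and
`H^i(X) ⊗ z` embeds in `H^(2m+1)(X')`, for a class `z` in the cohomology of `Z` with a Frobenius
eigenvalue `β` such that `α β` is the product of `q ^ (m + 1)` and a root of unity. -/
def HasTwists (𝒳 : ∀ n, Set (Cohomology.{u, v} Ω q n)) : Prop :=
  ∀ n, ∀ X ∈ 𝒳 n, ∀ (i : ℕ) (α : Ω), (X.H i).IsEigenvalue α → IsWeilNumber q (i + 1) α →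
    ∃ m, ∃ X' ∈ 𝒳 (2 * m + 1), ∃ β : Ω, IsTatePower q (m + 1) (α * β) ∧
      TensorEmbeds β (X.H i) (X'.H (2 * m + 1))

end

end Pool.Agent.Helper812_PN
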