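import Pool.Agent.Helper812_PN.Weil

/-!
# The decomposition by weights
-/

namespace Pool.Agent.Helper812_PN

universe u v

open Module Pool.Agent.Y143

section abs

variable {Ω : Type u} [Field Ω] {V : Type v} [AddCommGroup V] [Module Ω V]

/-- The projections to the pieces of a grading. -/
structure IsProj (G : ℤ → Submodule Ω V) (π : ℤ → Module.End Ω V) : Prop where
  mem : ∀ w x, π w x ∈ G w
  of_mem : ∀ w x, x ∈ G w → π w x = x
  of_ne : ∀ w w', w' ≠ w → ∀ x ∈ G w', π w x = 0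
  mem_of : ∀ (p : Submodule Ω V) x, (∀ w, π w x ∈ p) → x ∈ p

lemma exists_isProj {G : ℤ → Submodule Ω V} (h1 : iSupIndep G) (h2 : ⨆ w, G w = ⊤) :
    ∃ π, IsProj G π := by
  classical
  have hw : ∀ w, ∃ π : Module.End Ω V, (∀ x, π x ∈ G w) ∧ (∀ x ∈ G w, π x = x) ∧
      ∀ w', w' ≠ w → ∀ x ∈ G w', π x = 0 := by
    intro w
    have hc : IsCompl (G w) (⨆ w' ≠ w, G w') := by
      constructor
      · exact h1 w
      · rw [codisjoint_iff, eq_top_iff, ← h2]
        apply iSup_le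
        intro w'
        by_cases h : w' = w
        · subst h
          exact le_sup_left
        · exact le_trans (le_iSup₂_of_le w' h le_rfl) le_sup_right
    refine ⟨(G w).subtype ∘ₗ (G w).projectionOnto _ hc, fun x => ?_, fun x hx => ?_,
      fun w' hw' x hx => ?_⟩
    · exact Subtype.coe_prop _
    · have := Submodule.projectionOnto_apply_left hc ⟨x, hx⟩
      rw [LinearMap.comp_apply]
      exact congrArg Subtype.val this
    · rw [LinearMap.comp_apply]
      have hx' : x ∈ ⨆ w' ≠ w, G w' :=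
        Submodule.mem_iSup_of_mem w' (Submodule.mem_iSup_of_mem hw' hx)
      have : (G w).projectionOnto _ hc x = 0 :=
        (Submodule.projectionOnto_apply_eq_zero_iff hc).2 hx'
      rw [this]
      rfl
  choose π hπ1 hπ2 hπ3 using hw
  refine ⟨π, hπ1, hπ2, hπ3, fun p x hx => ?_⟩
  have h3 : x ∈ ⨆ w, G w := by rw [h2]; exact Submodule.mem_top
  obtain ⟨f, hf, hfx⟩ := (Submodule.mem_iSup_iff_exists_finsupp _ _).1 h3
  have h4 : ∀ w ∈ f.support, π w x = f w := by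
    intro w hw
    rw [← hfx, Finsupp.sum, map_sum, Finset.sum_eq_single w]
    · exact hπ2 w _ (hf w)
    · intro w' _ hne
      exact hπ3 w w' hne _ (hf w')
    · intro hn
      exact absurd hw hn
  rw [← hfx, Finsupp.sum]
  apply Submodule.sum_mem
  intro w hw
  rw [← h4 w hw]
  exact hx w

variable {V' : Type*} [AddCommGroup V'] [Module Ω V']

lemma IsProj.equiv {G : ℤ → Submodule Ω V} {π : ℤ → Module.End Ω V} (h : IsProj G π)
    {G' : ℤ → Submodule Ω V'} {π' : ℤ → Module.End Ω V'} (h' : IsProj G' π') (hG : ⨆ w, G w = ⊤)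
    (f : V →ₗ[Ω] V') (c : ℤ) (hf : ∀ w, ∀ x ∈ G w, f x ∈ G' (w + c)) (w : ℤ) (x : V) :
    π' (w + c) (f x) = f (π w x) := by
  have h1 : x ∈ ⨆ w, G w := by rw [hG]; exact Submodule.mem_top
  refine Submodule.iSup_induction G (motive := fun x => π' (w + c) (f x) = f (π w x)) h1 ?_ ?_ ?_
  · intro w' y hy
    by_cases hw : w' = w
    · subst hw
      rw [h.of_mem _ _ hy, h'.of_mem _ _ (hf _ _ hy)]
    · rw [h.of_ne _ _ hw _ hy, map_zero]
      exact h'.of_ne _ _ (by omega) _ (hf _ _ hy)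
  · simp
  · intro y z hy hz
    rw [map_add, map_add, map_add, map_add, hy, hz]

end abs

variable {Ω : Type u} [Field Ω] [CharZero Ω] {q : ℕ} (D : FrobModule.{u, v} Ω q)

/-- The part of weight `w`: the sum of the generalized eigenspaces for the eigenvalues of
weight `w`. -/
def wt (w : ℤ) : Submodule Ω D.V :=
  ⨆ α ∈ {α : Ω | IsWeilNumber q w α}, D.Φ.maxGenEigenspace α

lemma gen_le_wt {w : ℤ} {α : Ω} (hα : IsWeilNumber q w α) :
    D.Φ.maxGenEigenspace α ≤ wt D w := le_iSup₂_of_le (f := fun α _ => D.Φ.maxGenEigenspace α) α hα le_rfl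

lemma wt_le {w : ℤ} {p : Submodule Ω D.V}
    (h : ∀ α, IsWeilNumber q w α → D.Φ.maxGenEigenspace α ≤ p) : wt D w ≤ p :=
  iSup₂_le h

lemma indep_wt (hq : 1 < q) : iSupIndep (wt D) := by
  intro w
  have h1 : Disjoint (⨆ α ∈ {α : Ω | IsWeilNumber q w α}, D.Φ.maxGenEigenspace α)
      (⨆ α ∈ {α : Ω | ∃ w', w' ≠ w ∧ IsWeilNumber q w' α}, D.Φ.maxGenEigenspace α) := by
    apply (Module.End.independent_maxGenEigenspace D.Φ).disjoint_biSup_biSup
    rw [Set.disjoint_left]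
    rintro α h1 ⟨w', hw', h2⟩
    exact hw' (weil_unique hq h2 h1)
  refine h1.mono_right ?_
  apply iSup₂_le
  intro w' hw'
  apply iSup₂_le
  intro α hα
  exact le_iSup₂_of_le (f := fun α _ => D.Φ.maxGenEigenspace α) α ⟨w', hw', hα⟩ le_rfl

omit [CharZero Ω] in
/-- A nonzero generalized eigenvector gives an eigenvector. -/
lemma exists_eigen_of_gen {V : Type*} [AddCommGroup V] [Module Ω V] {T : Module.End Ω V} {α : Ω}
    {x : V} (hx : x ∈ T.maxGenEigenspace α) (hx0 : x ≠ 0) : ∃ k : ℕ,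
      ((T - α • (1 : Module.End Ω V)) ^ k) x ≠ 0 ∧
        T (((T - α • (1 : Module.End Ω V)) ^ k) x) = α • ((T - α • (1 : Module.End Ω V)) ^ k) x := by
  classical
  obtain ⟨m, hm⟩ := (Module.End.mem_maxGenEigenspace _ _ _).1 hx
  have hex : ∃ m : ℕ, ((T - α • (1 : Module.End Ω V)) ^ m) x = 0 := ⟨m, hm⟩
  have h1 := Nat.find_spec hex
  have h2 : Nat.find hex ≠ 0 := by
    intro h0
    rw [h0, pow_zero, Module.End.one_apply] at h1
    exact hx0 h1
  obtain ⟨k, hk⟩ := Nat.exists_eq_succ_of_ne_zero h2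
  refine ⟨k, Nat.find_min hex (by omega), ?_⟩
  rw [hk, Nat.succ_eq_add_one, pow_succ', Module.End.mul_apply, LinearMap.sub_apply,
    LinearMap.smul_apply, Module.End.one_apply, sub_eq_zero] at h1
  exact h1

variable [IsAlgClosed Ω]

lemma iSup_wt : ⨆ w, wt D w = ⊤ := by
  rw [eq_top_iff, ← Module.End.iSup_maxGenEigenspace_eq_top D.Φ]
  apply iSup_le
  intro α
  by_cases h : D.Φ.maxGenEigenspace α = ⊥
  · rw [h]; exact bot_le
  · obtain ⟨x, hx, hx0⟩ := (Submodule.ne_bot_iff _).1 h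
    obtain ⟨k, hk0, hk⟩ := exists_eigen_of_gen hx hx0
    obtain ⟨w, hw⟩ := D.weight α _ hk0 hk
    exact (gen_le_wt D hw).trans (le_iSup (wt D) w)

lemma exists_pr (hq : 1 < q) : ∃ π, IsProj (wt D) π := exists_isProj (indep_wt D hq) (iSup_wt D)

omit [IsAlgClosed Ω] in
lemma wt_bdd (hq : 1 < q) : ∃ B : ℕ, ∀ w : ℤ, B < w.natAbs → wt D w = ⊥ := by
  have h1 := WellFoundedGT.finite_ne_bot_of_iSupIndep (indep_wt D hq)
  obtain ⟨B, hB⟩ := (h1.image (fun w => w.natAbs)).bddAbove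
  refine ⟨B, fun w hw => ?_⟩
  by_contra hne
  have : w.natAbs ≤ B := hB ⟨w, hne, rfl⟩
  omega

omit [IsAlgClosed Ω] in
/-- Morphisms and generalized eigenspaces. -/
lemma gen_map {D D' : FrobModule.{u, v} Ω q} {β : Ω} (f : D.V →ₗ[Ω] D'.V)
    (hf : ∀ x, D'.Φ (f x) = β • f (D.Φ x)) {α : Ω} {x : D.V} (hx : x ∈ D.Φ.maxGenEigenspace α) :
    f x ∈ D'.Φ.maxGenEigenspace (β * α) := by
  rw [Module.End.mem_maxGenEigenspace] at hx ⊢
  obtain ⟨k, hk⟩ := hx
  refine ⟨k, ?_⟩
  have h1 : ∀ (k : ℕ) (y : D.V), ((D'.Φ - (β * α) • (1 : Module.End Ω D'.V)) ^ k) (f y) =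
      β ^ k • f (((D.Φ - α • (1 : Module.End Ω D.V)) ^ k) y) := by
    intro k
    induction k with
    | zero => intro y; simp
    | succ k ih =>
      intro y
      have e : (D'.Φ - (β * α) • (1 : Module.End Ω D'.V)) (f y) =
          β • f ((D.Φ - α • (1 : Module.End Ω D.V)) y) := by
        simp only [LinearMap.sub_apply, LinearMap.smul_apply, Module.End.one_apply, hf, map_sub,
          map_smul, smul_sub, mul_smul]
      rw [pow_succ, Module.End.mul_apply, e, map_smul, ih, smul_smul, pow_succ β,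
        pow_succ (D.Φ - α • (1 : Module.End Ω D.V)), Module.End.mul_apply, mul_comm β]
  rw [h1, hk, map_zero, smul_zero]

omit [IsAlgClosed Ω] in
/-- Morphisms and weights. -/
lemma wt_map {D D' : FrobModule.{u, v} Ω q} {β : Ω} {c : ℤ}
    (hβ : ∀ w α, IsWeilNumber q w α → IsWeilNumber q (w + c) (β * α))
    (f : D.V →ₗ[Ω] D'.V) (hf : ∀ x, D'.Φ (f x) = β • f (D.Φ x)) (w : ℤ) (x : D.V)
    (hx : x ∈ wt D w) : f x ∈ wt D' (w + c) := by
  have h1 : wt D w ≤ (wt D' (w + c)).comap f := by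
    apply wt_le
    intro α hα y hy
    exact gen_le_wt D' (hβ w α hα) (gen_map f hf hy)
  exact h1 hx

omit [IsAlgClosed Ω] in
lemma wt_N (hq : 1 < q) (w : ℤ) (x : D.V) (hx : x ∈ wt D w) : D.N x ∈ wt D (w - 2) := by
  have hq0 : (q : Ω) ≠ 0 := Nat.cast_ne_zero.2 (by omega)
  have := wt_map (D := D) (D' := D) (β := (q : Ω)⁻¹) (c := -2) (fun w α h => by
    have := weil_twist (by omega : q ≠ 0) h (-1)
    rwa [zpow_neg_one] at this) D.N (fun x => by
      rw [D.rel, smul_smul, inv_mul_cancel₀ hq0, one_smul]) w x hx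
  rwa [← sub_eq_add_neg] at this

omit [IsAlgClosed Ω] in
lemma wt_N_pow (hq : 1 < q) (r : ℕ) (w : ℤ) (x : D.V) (hx : x ∈ wt D w) :
    (D.N ^ r) x ∈ wt D (w - 2 * r) := by
  induction r with
  | zero => simpa using hx
  | succ r ih =>
    rw [pow_succ', Module.End.mul_apply]
    have := wt_N D hq _ _ ih
    rwa [show w - 2 * (r : ℤ) - 2 = w - 2 * ((r + 1 : ℕ) : ℤ) by push_cast; ring] at this

omit [IsAlgClosed Ω] in
lemma wt_Φ (w : ℤ) (x : D.V) (hx : x ∈ wt D w) : D.Φ x ∈ wt D w := by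
  have h1 : wt D w ≤ (wt D w).comap D.Φ := by
    apply wt_le
    intro α hα y hy
    exact gen_le_wt D hα (Module.End.mapsTo_maxGenEigenspace_of_comm (Commute.refl _) α hy)
  exact h1 hx

omit [IsAlgClosed Ω] in
/-- An eigenvector lies in the piece of its weight. -/
lemma eigen_wt {w : ℤ} {α : Ω} (hα : IsWeilNumber q w α) {x : D.V} (h : D.Φ x = α • x) :
    x ∈ wt D w := by
  apply gen_le_wt D hα
  rw [Module.End.mem_maxGenEigenspace]
  refine ⟨1, ?_⟩
  rw [pow_one, LinearMap.sub_apply, LinearMap.smul_apply, Module.End.one_apply, h, sub_self]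

omit [CharZero Ω] in
lemma exists_eigen_stable {V : Type*} [AddCommGroup V] [Module Ω V] [FiniteDimensional Ω V]
    (T : Module.End Ω V) {Z : Submodule Ω V} (hZ : ∀ x ∈ Z, T x ∈ Z) {v : V} (hv : v ∈ Z)
    (hv0 : v ≠ 0) : ∃ (α : Ω) (y : V), y ∈ Z ∧ y ≠ 0 ∧ T y = α • y := by
  have : Nontrivial Z := ⟨⟨⟨v, hv⟩, 0, fun h => hv0 (congrArg Subtype.val h)⟩⟩
  obtain ⟨α, hα⟩ := Module.End.exists_eigenvalue (T.restrict hZ)
  obtain ⟨y, hy⟩ := hα.exists_hasEigenvector
  refine ⟨α, y, y.2, fun h => hy.2 (Subtype.ext h), ?_⟩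
  exact congrArg Subtype.val hy.apply_eq_smul

omit [IsAlgClosed Ω] in
/-- The weight of an eigenvector in `wt D w` is `w`. -/
lemma weil_of_wt (hq : 1 < q) {w : ℤ} {α : Ω} {x : D.V} (hx : x ∈ wt D w) (hx0 : x ≠ 0)
    (h : D.Φ x = α • x) : IsWeilNumber q w α := by
  obtain ⟨w', hw'⟩ := D.weight α x hx0 h
  have h1 := eigen_wt D hw' h
  by_contra hne
  have hww : w ≠ w' := by
    rintro rfl
    exact hne hw'
  have := (indep_wt D hq).pairwiseDisjoint hww
  rw [Function.onFun, Submodule.disjoint_def] at this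
  exact hx0 (this x hx h1)

end Pool.Agent.Helper812_PN
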