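import Pool.Agent.Helper812_PN.Grad

/-!
# mw purity and the decomposition by weights; duality
-/

namespace Pool.Agent.Helper812_PN

universe u v

open Module Pool.Agent.Y143

variable {Ω : Type u} [Field Ω] [CharZero Ω] {q : ℕ}

/-- `N ^ r` is injective on the part of weight `i + r`. -/
def InjAt (D : FrobModule.{u, v} Ω q) (i : ℤ) (r : ℕ) : Prop :=
  ∀ x ∈ wt D (i + r), (D.N ^ r) x = 0 → x = 0

/-- `N ^ r` maps the part of weight `i + r` onto the part of weight `i - r`. -/
def SurjAt (D : FrobModule.{u, v} Ω q) (i : ℤ) (r : ℕ) : Prop :=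
  ∀ y ∈ wt D (i - r), ∃ x ∈ wt D (i + r), (D.N ^ r) x = y

/-- The filtration defined by projections. -/
def fil {V : Type*} [AddCommGroup V] [Module Ω V] (π : ℤ → Module.End Ω V) (a : ℤ) :
    Submodule Ω V where
  carrier := {x | ∀ w, a < w → π w x = 0}
  zero_mem' := fun w _ => map_zero _
  add_mem' := fun {x y} hx hy w hw => by rw [map_add, hx w hw, hy w hw, add_zero]
  smul_mem' := fun c x hx w hw => by rw [map_smul, hx w hw, smul_zero]

variable [IsAlgClosed Ω] (D : FrobModule.{u, v} Ω q)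

theorem pure_of_bij (hq : 1 < q) (i : ℤ) (hinj : ∀ r, InjAt D i r) (hsurj : ∀ r, SurjAt D i r) :
    D.Pure i := by
  obtain ⟨π, hπ⟩ := exists_pr D hq
  obtain ⟨B, hB⟩ := wt_bdd D hq
  have hN : ∀ w x, π (w + -2) (D.N x) = D.N (π w x) := fun w x =>
    hπ.equiv hπ (iSup_wt D) D.N (-2) (fun w x hx => by
      have := wt_N D hq w x hx
      rwa [sub_eq_add_neg] at this) w x
  have hNr : ∀ (r : ℕ) w x, π (w + -(2 * r)) ((D.N ^ r) x) = (D.N ^ r) (π w x) := fun r w x =>
    hπ.equiv hπ (iSup_wt D) (D.N ^ r) (-(2 * r)) (fun w x hx => by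
      have := wt_N_pow D hq r w x hx
      rwa [sub_eq_add_neg] at this) w x
  have hΦ : ∀ w x, π w (D.Φ x) = D.Φ (π w x) := fun w x => by
    have := hπ.equiv hπ (iSup_wt D) D.Φ 0 (fun w x hx => by
      rw [add_zero]; exact wt_Φ D w x hx) w x
    rwa [add_zero] at this
  refine ⟨fun a => fil π (i + a), ⟨?_, ?_, ?_, ?_, ?_, ?_⟩, ?_, ?_⟩
  · intro a b hab x hx w hw
    exact hx w (by omega)
  · refine ⟨-B - 1 - i, ?_⟩
    rw [eq_bot_iff]
    intro x hx
    apply hπ.mem_of
    intro w
    rw [Submodule.mem_bot]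
    by_cases hw : -(B : ℤ) - 1 < w
    · exact hx w (by omega)
    · have := hπ.mem w x
      rw [hB w (by omega), Submodule.mem_bot] at this
      exact this
  · refine ⟨B - i, ?_⟩
    rw [eq_top_iff]
    intro x _ w hw
    have := hπ.mem w x
    rw [hB w (by omega), Submodule.mem_bot] at this
    exact this
  · intro a x hx w hw
    have := hN (w + 2) x
    rw [show w + 2 + -2 = w by ring] at this
    rw [this, hx (w + 2) (by omega), map_zero]
  · intro r x hx hr w hw
    rcases eq_or_lt_of_le (show i + (r : ℤ) ≤ w by omega) with h | h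
    · subst h
      apply hinj r _ (hπ.mem _ _)
      rw [← hNr]
      exact hr _ (by omega)
    · exact hx w h
  · intro r y hy
    obtain ⟨x, hx, hxy⟩ := hsurj r (π (i - r) y) (hπ.mem _ _)
    refine ⟨x, fun w hw => hπ.of_ne _ _ (by omega) x hx, fun w hw => ?_⟩
    have h1 := wt_N_pow D hq r _ x hx
    rcases eq_or_lt_of_le (show i - (r : ℤ) ≤ w by omega) with h | h
    · subst h
      rw [map_sub, hxy, sub_eq_zero]
      exact (hπ.of_mem _ _ (hπ.mem _ _)).symm
    · rw [map_sub, hy w (by omega), hπ.of_ne w (i + r - 2 * r) (by omega) _ h1, sub_zero]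
  · intro a x hx w hw
    rw [hΦ, hx w hw, map_zero]
  · intro a α x hx hx' h
    have h0 : π (i + a) x ≠ 0 := by
      intro h0
      apply hx'
      intro w hw
      rcases eq_or_lt_of_le (show i + a ≤ w by omega) with h | h
      · rw [← h]; exact h0
      · exact hx w h
    have h1 : D.Φ (π (i + a) x) = α • π (i + a) x := by
      rw [← sub_eq_zero, ← hΦ, ← map_smul, ← map_sub]
      exact h _ (by omega)
    have := weil_of_wt D hq (hπ.mem _ _) h0 h1
    rwa [add_comm] at this

omit [IsAlgClosed Ω] in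
/-- mw purity bounds the weights of the kernel of `N`. -/
theorem kerBounded_of_pure (hq : 1 < q) {i : ℤ} (h : D.Pure i) : D.KerBounded i := by
  obtain ⟨M, hM, hMs, hMw⟩ := h
  intro w α x hx0 hN hα hw
  -- the step
  obtain ⟨a, ha1, ha2⟩ : ∃ a, x ∈ M a ∧ x ∉ M (a - 1) := by
    by_contra hcon
    push Not at hcon
    obtain ⟨a0, h0⟩ := hM.bot
    obtain ⟨a1, h1⟩ := hM.top
    have key : ∀ k : ℕ, x ∈ M (a1 - k) := by
      intro k
      induction k with
      | zero => rw [Nat.cast_zero, sub_zero, h1]; exact Submodule.mem_top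
      | succ k ih =>
        have := hcon _ ih
        rwa [show a1 - (k : ℤ) - 1 = a1 - ((k + 1 : ℕ) : ℤ) by push_cast; ring] at this
    have h2 := hM.mono (show a1 - ((a1 - a0).toNat : ℤ) ≤ a0 by omega) (key _)
    rw [h0, Submodule.mem_bot] at h2
    exact hx0 h2
  have h1 := hMw a α x ha1 ha2 (by rw [hα, sub_self]; exact Submodule.zero_mem _)
  have h2 := weil_unique hq hw h1
  by_contra hcon
  obtain ⟨b, rfl⟩ := Int.eq_ofNat_of_zero_le (show 0 ≤ a by omega)
  obtain ⟨c, rfl⟩ := Nat.exists_eq_succ_of_ne_zero (show b ≠ 0 by rintro rfl; push_cast at h2; omega)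
  refine ha2 (hM.inj (c + 1) x ha1 ?_)
  rw [pow_succ, Module.End.mul_apply, hN, map_zero]
  exact Submodule.zero_mem _

/-- A bound for the weights of the kernel of `N` gives the injectivity of `N`. -/
theorem injAt_one_of_kerBounded (hq : 1 < q) {i : ℤ} (h : D.KerBounded i) : InjAt D i 1 := by
  intro x hx hN
  by_contra hx0
  rw [pow_one] at hN
  have hZ : ∀ y ∈ wt D (i + (1 : ℕ)) ⊓ LinearMap.ker D.N,
      D.Φ y ∈ wt D (i + (1 : ℕ)) ⊓ LinearMap.ker D.N := by
    rintro y ⟨h1, h2⟩
    refine ⟨wt_Φ D _ y h1, ?_⟩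
    rw [SetLike.mem_coe, LinearMap.mem_ker] at h2 ⊢
    rw [D.rel, h2, map_zero, smul_zero]
  obtain ⟨α, y, hy, hy0, hyα⟩ := exists_eigen_stable D.Φ hZ (v := x) ⟨hx, hN⟩ hx0
  have h1 := weil_of_wt D hq hy.1 hy0 hyα
  have h2 := h _ α y hy0 hy.2 hyα h1
  push_cast at h2
  omega

/-! ### Duality -/

section dual

variable {n : ℕ} {D} {D' : FrobModule.{u, v} Ω q} {B : D.V →ₗ[Ω] D'.V →ₗ[Ω] Ω}

omit [IsAlgClosed Ω]

lemma IsDuality.flip (hB : IsDuality n D D' B) : IsDuality n D' D B.flip where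
  left := hB.right
  right := hB.left
  frob x y := by
    rw [LinearMap.flip_apply, LinearMap.flip_apply]
    exact hB.frob y x
  mon x y := by
    rw [LinearMap.flip_apply, LinearMap.flip_apply, hB.mon, neg_neg]

lemma dual_gen (hB : IsDuality n D D' B) {α β : Ω} (h : α * β ≠ (q : Ω) ^ n) {x : D.V} {y : D'.V}
    (hx : x ∈ D.Φ.maxGenEigenspace α) (hy : y ∈ D'.Φ.maxGenEigenspace β) : B x y = 0 := by
  obtain ⟨k, hk⟩ := (Module.End.mem_maxGenEigenspace _ _ _).1 hx
  obtain ⟨l, hl⟩ := (Module.End.mem_maxGenEigenspace _ _ _).1 hy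
  have key : ∀ s k l : ℕ, k + l = s → ∀ (x : D.V) (y : D'.V),
      ((D.Φ - α • (1 : Module.End Ω D.V)) ^ k) x = 0 →
      ((D'.Φ - β • (1 : Module.End Ω D'.V)) ^ l) y = 0 → B x y = 0 := by
    intro s
    induction s using Nat.strong_induction_on with
    | _ s ih =>
      intro k l hs x y hk hl
      rcases Nat.eq_zero_or_pos k with hk0 | hk0
      · subst hk0
        rw [pow_zero, Module.End.one_apply] at hk
        rw [hk, map_zero, LinearMap.zero_apply]
      rcases Nat.eq_zero_or_pos l with hl0 | hl0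
      · subst hl0
        rw [pow_zero, Module.End.one_apply] at hl
        rw [hl, map_zero]
      obtain ⟨k, rfl⟩ := Nat.exists_eq_succ_of_ne_zero hk0.ne'
      obtain ⟨l, rfl⟩ := Nat.exists_eq_succ_of_ne_zero hl0.ne'
      set x' := (D.Φ - α • (1 : Module.End Ω D.V)) x with hx'
      set y' := (D'.Φ - β • (1 : Module.End Ω D'.V)) y with hy'
      have hk' : ((D.Φ - α • (1 : Module.End Ω D.V)) ^ k) x' = 0 := by
        rw [hx', ← Module.End.mul_apply, ← pow_succ]
        exact hk
      have hl' : ((D'.Φ - β • (1 : Module.End Ω D'.V)) ^ l) y' = 0 := by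
        rw [hy', ← Module.End.mul_apply, ← pow_succ]
        exact hl
      have e1 : B x' y' = 0 := ih (k + l) (by omega) k l rfl x' y' hk' hl'
      have e2 : B x' y = 0 := ih (k + (l + 1)) (by omega) k (l + 1) rfl x' y hk' hl
      have e3 : B x y' = 0 := ih (k + 1 + l) (by omega) (k + 1) l rfl x y' hk hl'
      have ex : D.Φ x = x' + α • x := by
        rw [hx', LinearMap.sub_apply, LinearMap.smul_apply, Module.End.one_apply, sub_add_cancel]
      have ey : D'.Φ y = y' + β • y := by
        rw [hy', LinearMap.sub_apply, LinearMap.smul_apply, Module.End.one_apply, sub_add_cancel]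
      have e4 := hB.frob x y
      rw [ex, ey] at e4
      simp only [map_add, LinearMap.add_apply, map_smul, LinearMap.smul_apply, e1, e2, e3,
        zero_add, smul_eq_mul] at e4
      have e5 : (α * β - (q : Ω) ^ n) * B x y = 0 := by
        linear_combination e4
      exact (mul_eq_zero.1 e5).resolve_left (sub_ne_zero.2 h)
  exact key (k + l) k l rfl x y hk hl

lemma dual_wt (hq : 1 < q) (hB : IsDuality n D D' B) {a b : ℤ} (h : a + b ≠ 2 * n) {x : D.V}
    {y : D'.V} (hx : x ∈ wt D a) (hy : y ∈ wt D' b) : B x y = 0 := by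
  have h1 : wt D a ≤ LinearMap.ker (B.flip y) := by
    apply wt_le
    intro α hα x hx
    have h2 : wt D' b ≤ LinearMap.ker (B x) := by
      apply wt_le
      intro β hβ y hy
      rw [LinearMap.mem_ker]
      apply dual_gen hB _ hx hy
      intro hαβ
      have := weil_unique hq hβ (weil_dual (by omega) hα hαβ)
      omega
    have := h2 hy
    rwa [LinearMap.mem_ker] at this ⊢
  exact LinearMap.mem_ker.1 (h1 hx)

variable [IsAlgClosed Ω]

lemma perfect_wt (hq : 1 < q) (hB : IsDuality n D D' B) {a : ℤ} {x : D.V} (hx : x ∈ wt D a)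
    (h : ∀ y ∈ wt D' (2 * n - a), B x y = 0) : x = 0 := by
  apply hB.left
  have h1 : (⨆ b, wt D' b) ≤ LinearMap.ker (B x) := by
    apply iSup_le
    intro b y hy
    rw [LinearMap.mem_ker]
    by_cases hb : b = 2 * n - a
    · subst hb
      exact h y hy
    · exact dual_wt hq hB (by omega) hx hy
  intro y
  rw [iSup_wt] at h1
  exact LinearMap.mem_ker.1 (h1 (Submodule.mem_top : y ∈ ⊤))

lemma finrank_le (hq : 1 < q) (hB : IsDuality n D D' B) (a : ℤ) :
    finrank Ω (wt D a) ≤ finrank Ω (wt D' (2 * n - a)) := by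
  let f : wt D a →ₗ[Ω] Module.Dual Ω (wt D' (2 * n - a)) :=
    ((Submodule.subtype (wt D' (2 * n - a))).dualMap ∘ₗ B) ∘ₗ (Submodule.subtype (wt D a))
  have hf : Function.Injective f := by
    rw [← LinearMap.ker_eq_bot, eq_bot_iff]
    intro x hx
    rw [LinearMap.mem_ker] at hx
    rw [Submodule.mem_bot]
    apply Subtype.ext
    apply perfect_wt hq hB x.2
    intro y hy
    exact LinearMap.congr_fun hx ⟨y, hy⟩
  have := LinearMap.finrank_le_finrank_of_injective hf
  rwa [Subspace.dual_finrank_eq] at this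

lemma finrank_eq (hq : 1 < q) (hB : IsDuality n D D' B) (a : ℤ) :
    finrank Ω (wt D a) = finrank Ω (wt D' (2 * n - a)) := by
  apply le_antisymm (finrank_le hq hB a)
  have := finrank_le hq hB.flip (2 * n - a)
  rwa [show 2 * (n : ℤ) - (2 * n - a) = a by ring] at this

omit [IsAlgClosed Ω] in
lemma finrank_le_of_injAt (hq : 1 < q) {i : ℤ} {r : ℕ} (h : InjAt D i r) :
    finrank Ω (wt D (i + r)) ≤ finrank Ω (wt D (i - r)) := by
  have hmem : ∀ x ∈ wt D (i + r), (D.N ^ r) x ∈ wt D (i - r) := fun x hx => by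
    have := wt_N_pow D hq r _ x hx
    rwa [show i + (r : ℤ) - 2 * r = i - r by ring] at this
  apply LinearMap.finrank_le_finrank_of_injective (f := (D.N ^ r).restrict hmem)
  rw [← LinearMap.ker_eq_bot, eq_bot_iff]
  intro x hx
  rw [LinearMap.mem_ker] at hx
  rw [Submodule.mem_bot]
  exact Subtype.ext (h x x.2 (congrArg Subtype.val hx))

/-- Injectivity in complementary degrees gives surjectivity. -/
theorem surjAt_of_injAt (hq : 1 < q) (hB : IsDuality n D D' B) {i j : ℤ} (hij : i + j = 2 * n)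
    {r : ℕ} (h : InjAt D i r) (h' : InjAt D' j r) : SurjAt D i r := by
  have hmem : ∀ x ∈ wt D (i + r), (D.N ^ r) x ∈ wt D (i - r) := fun x hx => by
    have := wt_N_pow D hq r _ x hx
    rwa [show i + (r : ℤ) - 2 * r = i - r by ring] at this
  have h1 := finrank_le_of_injAt hq h
  have h2 := finrank_le_of_injAt hq h'
  have h3 := finrank_eq hq hB (i + r)
  have h4 := finrank_eq hq hB (i - r)
  rw [show 2 * (n : ℤ) - (i + r) = j - r by omega] at h3
  rw [show 2 * (n : ℤ) - (i - r) = j + r by omega] at h4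
  have h5 : finrank Ω (wt D (i + r)) = finrank Ω (wt D (i - r)) := by omega
  have hinj : Function.Injective ((D.N ^ r).restrict hmem) := by
    rw [← LinearMap.ker_eq_bot, eq_bot_iff]
    intro x hx
    rw [LinearMap.mem_ker] at hx
    rw [Submodule.mem_bot]
    exact Subtype.ext (h x x.2 (congrArg Subtype.val hx))
  have hsurj := (LinearMap.injective_iff_surjective_of_finrank_eq_finrank h5).1 hinj
  intro y hy
  obtain ⟨x, hx⟩ := hsurj ⟨y, hy⟩
  exact ⟨x, x.2, congrArg Subtype.val hx⟩

end dual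

end Pool.Agent.Helper812_PN
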