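import Pool.Agent.Helper812_PN.Defs

/-!
# Weil numbers; variants of the definitions
-/

namespace Pool.Agent.Helper812_PN

universe u v

open Module Pool.Agent.Y143

variable {Ω : Type u} [Field Ω] [CharZero Ω] {q : ℕ}

/-- `B` is a perfect pairing of `D` and `D'` into `Ω(-n)`, compatible with Frobenius and
monodromy. -/
structure IsDuality (n : ℕ) (D D' : FrobModule.{u, v} Ω q) (B : D.V →ₗ[Ω] D'.V →ₗ[Ω] Ω) :
    Prop where
  left : ∀ x, (∀ y, B x y = 0) → x = 0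
  right : ∀ y, (∀ x, B x y = 0) → y = 0
  frob : ∀ x y, B (D.Φ x) (D'.Φ y) = (q : Ω) ^ n * B x y
  mon : ∀ x y, B (D.N x) y = -B x (D'.N y)

lemma AreDual.exists {n : ℕ} {D D' : FrobModule.{u, v} Ω q} (h : AreDual n D D') :
    ∃ B, IsDuality n D D' B := by
  obtain ⟨B, hB⟩ := h
  exact ⟨B, hB.left, hB.right, hB.frob, hB.mon⟩

/-- `J(x, y) = x ⊗ e₂ + y ⊗ e₀` embeds the tensor product of `D` with `H^1(E)` in `D'`. -/
structure IsTateTensor (D D' : FrobModule.{u, v} Ω q) (J : D.V × D.V →ₗ[Ω] D'.V) : Prop where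
  inj : Function.Injective J
  frob : ∀ x y, D'.Φ (J (x, y)) = J ((q : Ω) • D.Φ x, D.Φ y)
  mon : ∀ x y, D'.N (J (x, y)) = J (D.N x, x + D.N y)

lemma TateEmbeds.exists {D D' : FrobModule.{u, v} Ω q} (h : TateEmbeds D D') :
    ∃ J, IsTateTensor D D' J := by
  obtain ⟨J₂, J₀, hJ⟩ := h
  have e : ∀ x y, (J₂.coprod J₀) (x, y) = J₂ x + J₀ y := fun x y => LinearMap.coprod_apply _ _ _
  have h1 : ∀ x, D'.Φ (J₂ x) = (q : Ω) • J₂ (D.Φ x) := hJ.frob₂
  have h2 : ∀ x, D'.Φ (J₀ x) = J₀ (D.Φ x) := hJ.frob₀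
  have h3 : ∀ x, D'.N (J₂ x) = J₂ (D.N x) + J₀ x := hJ.mon₂
  have h4 : ∀ x, D'.N (J₀ x) = J₀ (D.N x) := hJ.mon₀
  refine ⟨J₂.coprod J₀, ?_, fun x y => ?_, fun x y => ?_⟩
  · rw [← LinearMap.ker_eq_bot, eq_bot_iff]
    rintro ⟨x, y⟩ hxy
    rw [LinearMap.mem_ker, e] at hxy
    obtain ⟨rfl, rfl⟩ := hJ.inj x y hxy
    exact Submodule.zero_mem _
  · rw [e, e, map_add, h1, h2, map_smul]
  · rw [e, e, map_add, h3, h4, map_add, add_assoc]

/-- `J(x) = x ⊗ z` embeds `D` in `D'`, where `z` is a class with `N z = 0` and Frobenius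
eigenvalue `β`. -/
structure IsTwist (β : Ω) (D D' : FrobModule.{u, v} Ω q) (J : D.V →ₗ[Ω] D'.V) : Prop where
  inj : Function.Injective J
  frob : ∀ x, D'.Φ (J x) = β • J (D.Φ x)
  mon : ∀ x, D'.N (J x) = J (D.N x)

lemma TensorEmbeds.exists {β : Ω} {D D' : FrobModule.{u, v} Ω q} (h : TensorEmbeds β D D') :
    ∃ J, IsTwist β D D' J := by
  obtain ⟨J, hJ⟩ := h
  refine ⟨J, ?_, hJ.frob, hJ.mon⟩
  rw [← LinearMap.ker_eq_bot, eq_bot_iff]
  intro x hx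
  exact hJ.inj x hx

/-- Tate twists of Weil numbers. -/
lemma weil_twist (hq : q ≠ 0) {w : ℤ} {β : Ω} (h : IsWeilNumber q w β) (k : ℤ) :
    IsWeilNumber q (w + 2 * k) ((q : Ω) ^ k * β) := by
  obtain ⟨h1, h2⟩ := h
  have hqΩ : (q : Ω) ≠ 0 := Nat.cast_ne_zero.2 hq
  have hqC : (q : ℂ) ≠ 0 := Nat.cast_ne_zero.2 hq
  have hqalg : IsAlgebraic ℚ ((q : Ω) ^ k) := by
    have : ((q : Ω) ^ k) = algebraMap ℚ Ω ((q : ℚ) ^ k) := by
      rw [map_zpow₀, map_natCast]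
    rw [this]
    exact isAlgebraic_algebraMap _
  refine ⟨hqalg.mul h1, fun z hz => ?_⟩
  set P := minpoly ℚ β with hP
  set Q : Polynomial ℚ := P.comp (Polynomial.C (((q : ℚ) ^ k)⁻¹) * Polynomial.X) with hQ
  have hQ0 : Polynomial.aeval ((q : Ω) ^ k * β) Q = 0 := by
    rw [hQ, Polynomial.aeval_comp]
    simp only [map_mul, Polynomial.aeval_C, Polynomial.aeval_X, map_inv₀, map_zpow₀, map_natCast]
    rw [inv_mul_cancel_left₀ (zpow_ne_zero _ hqΩ)]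
    exact minpoly.aeval ℚ β
  have hdvd := minpoly.dvd ℚ _ hQ0
  have hQz : Polynomial.aeval z Q = 0 := by
    obtain ⟨R, hR⟩ := hdvd
    rw [hR, map_mul, hz, zero_mul]
  rw [hQ, Polynomial.aeval_comp] at hQz
  simp only [map_mul, Polynomial.aeval_C, Polynomial.aeval_X, map_inv₀, map_zpow₀, map_natCast]
    at hQz
  have h3 := h2 _ hQz
  rw [norm_mul, norm_inv, norm_zpow, Complex.norm_natCast] at h3
  have hqR : (0 : ℝ) < q := Nat.cast_pos.2 (Nat.pos_of_ne_zero hq)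
  have h4 : ‖z‖ = (q : ℝ) ^ k * (q : ℝ) ^ ((w : ℝ) / 2) := by
    rw [← h3, ← mul_assoc, mul_inv_cancel₀ (zpow_ne_zero _ hqR.ne'), one_mul]
  rw [h4, ← Real.rpow_intCast, ← Real.rpow_add hqR]
  congr 1
  push_cast
  ring

lemma aeval_minpoly_inv {β : Ω} (hβ : IsAlgebraic ℚ β) {z : ℂ}
    (hz : Polynomial.aeval z (minpoly ℚ β⁻¹) = 0) : Polynomial.aeval z⁻¹ (minpoly ℚ β) = 0 := by
  let E := IntermediateField.adjoin ℚ {β⁻¹}
  have hint : IsIntegral ℚ β⁻¹ := hβ.inv.isIntegral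
  have hzroot : z ∈ (minpoly ℚ β⁻¹).aroots ℂ := by
    rw [Polynomial.mem_aroots]
    exact ⟨minpoly.ne_zero hint, hz⟩
  let ψ : E →ₐ[ℚ] ℂ := (IntermediateField.algHomAdjoinIntegralEquiv ℚ hint).symm ⟨z, hzroot⟩
  have hψ : ψ (IntermediateField.AdjoinSimple.gen ℚ β⁻¹) = z :=
    IntermediateField.algHomAdjoinIntegralEquiv_symm_apply_gen ℚ hint ⟨z, hzroot⟩
  have h1 : minpoly ℚ (IntermediateField.AdjoinSimple.gen ℚ β⁻¹)⁻¹ = minpoly ℚ β := by
    rw [← minpoly.algebraMap_eq (A := ℚ) (B := E) (B' := Ω) (algebraMap E Ω).injective, map_inv₀,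
      IntermediateField.AdjoinSimple.algebraMap_gen, inv_inv]
  rw [← h1, ← hψ, ← map_inv₀, Polynomial.aeval_algHom_apply, minpoly.aeval, map_zero]

lemma weil_inv {w : ℤ} {β : Ω} (h : IsWeilNumber q w β) : IsWeilNumber q (-w) β⁻¹ := by
  obtain ⟨h1, h2⟩ := h
  refine ⟨h1.inv, fun z hz => ?_⟩
  have h6 := h2 _ (aeval_minpoly_inv h1 hz)
  rw [norm_inv] at h6
  rw [← inv_inv ‖z‖, h6, ← Real.rpow_neg (Nat.cast_nonneg q)]
  congr 1
  push_cast
  ring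

/-- The weight of a Weil number is unique. -/
lemma weil_unique (hq : 1 < q) {w w' : ℤ} {α : Ω} (h : IsWeilNumber q w α)
    (h' : IsWeilNumber q w' α) : w = w' := by
  have h1 : (minpoly ℚ α).degree ≠ 0 := (minpoly.degree_pos h.1.isIntegral).ne'
  obtain ⟨z, hz⟩ := IsAlgClosed.exists_aeval_eq_zero ℂ (minpoly ℚ α) h1
  have h2 := h.2 z hz
  rw [h'.2 z hz] at h2
  have hq' : (1 : ℝ) < q := by exact_mod_cast hq
  have h3 := (Real.rpow_right_inj (by linarith) hq'.ne').1 h2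
  have h4 : (w' : ℝ) = w := by linarith
  exact_mod_cast h4.symm

lemma weil_ne_zero (hq : q ≠ 0) {w : ℤ} {α : Ω} (h : IsWeilNumber q w α) : α ≠ 0 := by
  rintro rfl
  have h1 := h.2 0 (by rw [minpoly.zero, Polynomial.aeval_X])
  rw [norm_zero] at h1
  have hq' : (0 : ℝ) < q := by exact_mod_cast Nat.pos_of_ne_zero hq
  exact (Real.rpow_pos_of_pos hq' _).ne h1

/-- A root of `x ^ k = q ^ (c k)` is a Weil number of weight `2 c`. -/
lemma weil_of_pow {c k : ℕ} (hk : 0 < k) {γ : Ω} (h : γ ^ k = ((q : Ω) ^ c) ^ k) :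
    IsWeilNumber q (2 * (c : ℤ)) γ := by
  have h1 : IsAlgebraic ℚ γ := by
    refine IsAlgebraic.of_pow hk ?_
    rw [h]
    have : ((q : Ω) ^ c) ^ k = algebraMap ℚ Ω (((q : ℚ) ^ c) ^ k) := by
      simp
    rw [this]
    exact isAlgebraic_algebraMap _
  refine ⟨h1, fun z hz => ?_⟩
  have h2 : Polynomial.aeval γ (Polynomial.X ^ k - Polynomial.C (((q : ℚ) ^ c) ^ k)) = 0 := by
    rw [map_sub, map_pow, Polynomial.aeval_X, Polynomial.aeval_C, h]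
    simp
  obtain ⟨R, hR⟩ := minpoly.dvd ℚ γ h2
  have h3 : Polynomial.aeval z (Polynomial.X ^ k - Polynomial.C (((q : ℚ) ^ c) ^ k)) = 0 := by
    rw [hR, map_mul, hz, zero_mul]
  rw [map_sub, map_pow, Polynomial.aeval_X, Polynomial.aeval_C, sub_eq_zero] at h3
  have h4 : ‖z‖ ^ k = ((q : ℝ) ^ c) ^ k := by
    rw [← norm_pow, h3]
    simp
  have h5 : ‖z‖ = (q : ℝ) ^ c :=
    (pow_left_inj₀ (norm_nonneg _) (by positivity) (by omega)).1 h4
  rw [h5, ← Real.rpow_natCast]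
  congr 1
  push_cast
  ring

/-- If `α β = q ^ n` and `α` has weight `w`, then `β` has weight `2 n - w`. -/
lemma weil_dual (hq : q ≠ 0) {n : ℕ} {w : ℤ} {α β : Ω} (h : IsWeilNumber q w α)
    (hαβ : α * β = (q : Ω) ^ n) : IsWeilNumber q (2 * n - w) β := by
  have hα := weil_ne_zero hq h
  have h1 := weil_twist hq (weil_inv h) n
  rw [zpow_natCast, ← hαβ, mul_comm α β, mul_assoc, mul_inv_cancel₀ hα, mul_one] at h1
  rwa [show (2 : ℤ) * n - w = -w + 2 * n by ring]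

end Pool.Agent.Helper812_PN
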